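import Pool.Agent.helper52.T1.SpecF

/-!
# Row KLW of project T1 (MP_07c750_an): the two-set inequality for the labels
-/

set_option autoImplicit false

open scoped MatrixGroups ContDiff Topology UpperHalfPlane ComplexConjugate
open UpperHalfPlane MeasureTheory Filter Set

namespace Pool.Agent.T1

open Pool.Agent.RS Pool.Agent.MS Pool.Agent.HV
open Pool.Agent.EN (XG MG mkX mkM fl pr)

noncomputable section

/-- additivity of `EX` up to non-integrability -/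
theorem KLW_add (F : Set ℍ) (β α : ℝ → ℝ) (r : ℝ) (φ : ℍ → ℂ) (f f' : SL(2, ℝ) → ℝ) (B : ℝ)
    (h : EX F β α r φ (fun g => f g + f' g) ≤ B) (h1 : EX F β α r φ f ≤ B) (h2 : EX F β α r φ f' ≤ B) :
    EX F β α r φ f + EX F β α r φ f' ≤ B := by
  unfold EX iR at *
  by_cases i1 : Integrable (fun g => f g * ‖pf β α r φ g‖ ^ 2) (mG.restrict (dG F))
  · by_cases i2 : Integrable (fun g => f' g * ‖pf β α r φ g‖ ^ 2) (mG.restrict (dG F))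
    · rw [← mul_add, ← integral_add i1 i2]
      have e : (fun g => (f g + f' g) * ‖pf β α r φ g‖ ^ 2) = fun g => f g * ‖pf β α r φ g‖ ^ 2 + f' g * ‖pf β α r φ g‖ ^ 2 := by
        funext g
        ring
      rw [e] at h
      exact h
    · rw [integral_undef i2, mul_zero, add_zero]
      exact h1
  · rw [integral_undef i1, mul_zero, zero_add]
    exact h2

/-- a trivial decomposition -/
theorem KLW_cut (p : ℕ → Bool) (M : ℕ) : Cut p 0 M 0 := by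
  induction M with
  | zero => exact Cut.nil 0
  | succ n ih => exact Cut.blk 0 n 0 ih

open Classical in
/-- the inequality for two labels -/
theorem KLW_lab {y0 : ℕ} (h4 : ∀ (M : ℕ) (p : ℕ → Bool) (S : Finset ℕ), (∀ x ∈ S, 2 * x < M ∧ ∀ i < y0, p (x + i) = false) → M ≤ 100 * Kc p (M / 2) M → ∃ L : ℕ, Cut p 0 M L ∧ S.card ≤ 20 * L)
    (M : ℕ) (hM : 1 ≤ M) (p q : ℕ → Bool) (a' b' x : ℝ) (hx : x ≤ a' + b') (ha : a' ≤ VV y0 M p) (hb : b' ≤ (Kc q 0 M : ℝ) / (2 * M)) :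
    ∃ L : ℕ, Cut p 0 M L ∧ x * M ≤ ((Kc p 0 M : ℝ) + Kc q 0 M) / 2 + L / 808000 := by
  have hM0 : (0 : ℝ) < M := by exact_mod_cast hM
  have hb' : b' * M ≤ (Kc q 0 M : ℝ) / 2 := by
    have := mul_le_mul_of_nonneg_right hb hM0.le
    refine this.trans (le_of_eq ?_)
    field_simp
  have ha' : a' * M ≤ (Kc p 0 M : ℝ) / 2 + (if M ≤ 100 * Kc p (M / 2) M then ((Dp y0 M p).card : ℝ) / 16160000 else 0) := by
    have := mul_le_mul_of_nonneg_right ha hM0.le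
    refine this.trans (le_of_eq ?_)
    unfold VV
    rw [div_mul_cancel₀ _ hM0.ne']
  have hxM : x * M ≤ a' * M + b' * M := by
    rw [← add_mul]
    exact mul_le_mul_of_nonneg_right hx hM0.le
  by_cases hc : M ≤ 100 * Kc p (M / 2) M
  · obtain ⟨L, hL, hcard⟩ := h4 M p (Dp y0 M p) (by
      intro x hx
      unfold Dp at hx
      exact (Finset.mem_filter.1 hx).2) hc
    refine ⟨L, hL, ?_⟩
    rw [if_pos hc] at ha'
    have hcr : ((Dp y0 M p).card : ℝ) ≤ 20 * L := by exact_mod_cast hcard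
    linarith
  · refine ⟨0, KLW_cut p M, ?_⟩
    rw [if_neg hc] at ha'
    simp only [Nat.cast_zero, zero_div, add_zero]
    linarith

/-- monotonicity of the leaf condition -/
theorem KLW_mono {Ψ Ψ' : SL(2, ℝ) → ℝ} {n εc l0 Q Q' : ℝ} (h : IR.LFC Ψ Ψ' n εc l0 Q) (hQ : Q ≤ Q') : IR.LFC Ψ Ψ' n εc l0 Q' := by
  intro l g g' J c h0 h1 h2
  exact (h l g g' J c h0 h1 h2).trans (mul_le_mul_of_nonneg_right hQ (Finset.sum_nonneg fun j _ => by positivity))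

/-- the leaf condition for the zero function -/
theorem KLW_zero (Ψ' : SL(2, ℝ) → ℝ) {n εc l0 Q : ℝ} (hQ : 0 ≤ Q) : IR.LFC (fun _ => 0) Ψ' n εc l0 Q := by
  intro l g g' J c h0 h1 h2
  have e : Icc (0 : ℝ) 1 ∩ {v : ℝ | (0 : ℝ) ≠ 0} = ∅ := by
    ext v
    simp
  simp only [e, Measure.restrict_empty, integral_zero_measure]
  exact mul_nonneg hQ (Finset.sum_nonneg fun j _ => by positivity)

/-- the choice of `M0` -/
theorem KLW_M0 (N0 : ℕ) (hN : 2 ≤ N0) (ε η : ℝ) (hε : 0 < ε) (hη : 0 < η) : ∃ M0 : ℕ, 1 ≤ M0 ∧ ∀ M : ℕ, M0 ≤ M → (N0 : ℝ) ^ (-ε * M + 3) ≤ η := by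
  have hN2 : (2 : ℝ) ≤ N0 := by exact_mod_cast hN
  have hN0 : (0 : ℝ) < N0 := by linarith
  have hl : 0 < Real.log N0 := Real.log_pos (by linarith)
  obtain ⟨k, hk⟩ := exists_nat_ge ((3 * Real.log N0 - Real.log η) / (ε * Real.log N0))
  refine ⟨max 1 k, le_max_left _ _, ?_⟩
  intro M hM
  have hkM : (k : ℝ) ≤ M := by exact_mod_cast (le_max_right _ _).trans hM
  have h1 : 3 * Real.log N0 - Real.log η ≤ M * (ε * Real.log N0) := (div_le_iff₀ (by positivity)).1 (hk.trans hkM)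
  rw [Real.rpow_def_of_pos hN0, ← Real.le_log_iff_exp_le hη]
  nlinarith

/-- the last error -/
theorem KLW_l0 {r w : ℝ} {N0 M : ℕ} (hr : (100 : ℝ) ^ (10 : ℕ) ≤ r) (hw : w ≤ 1 / 100) (hN : 1 ≤ N0) (h : (N0 : ℝ) ^ (M + 1) ≤ r ^ w) : r ^ (-(1 / 5) : ℝ) ≤ 1 / (100 * (N0 : ℝ) ^ (M + 1)) := by
  have hr1 : (1 : ℝ) ≤ r := le_trans (by norm_num) hr
  have hr0 : 0 < r := by linarith
  have hN0 : (0 : ℝ) < N0 := by exact_mod_cast hN
  have h1 : (N0 : ℝ) ^ (M + 1) ≤ r ^ ((1 : ℝ) / 100) := h.trans (Real.rpow_le_rpow_of_exponent_le hr1 hw)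
  have h2 : (100 : ℝ) ≤ r ^ ((1 : ℝ) / 10) := by
    have e : (100 : ℝ) = ((100 : ℝ) ^ (10 : ℕ)) ^ ((1 : ℝ) / 10) := by
      rw [← Real.rpow_natCast, ← Real.rpow_mul (by norm_num)]
      norm_num
    calc (100 : ℝ) = ((100 : ℝ) ^ (10 : ℕ)) ^ ((1 : ℝ) / 10) := e
      _ ≤ r ^ ((1 : ℝ) / 10) := Real.rpow_le_rpow (by positivity) hr (by norm_num)
  have h3 : 100 * (N0 : ℝ) ^ (M + 1) ≤ r ^ ((1 : ℝ) / 5) := by
    calc 100 * (N0 : ℝ) ^ (M + 1) ≤ r ^ ((1 : ℝ) / 10) * r ^ ((1 : ℝ) / 100) := mul_le_mul h2 h1 (by positivity) (by positivity)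
      _ = r ^ ((1 : ℝ) / 10 + 1 / 100) := (Real.rpow_add hr0 _ _).symm
      _ ≤ r ^ ((1 : ℝ) / 5) := Real.rpow_le_rpow_of_exponent_le hr1 (by norm_num)
  rw [Real.rpow_neg hr0.le, one_div (100 * (N0 : ℝ) ^ (M + 1))]
  exact inv_anti₀ (by positivity) h3

/-- **Row KLW** (the two-set inequality for the labels) -/
theorem KLW_proof (h1 : UPE_stmt) (h2 : FLQ_stmt) (h3 : PSL_stmt) (h4 : CVR_stmt) : KLW_stmt := by
  obtain ⟨y0, hy0, hcv⟩ := h4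
  refine ⟨y0, hy0, ?_⟩
  intro β α hβ hα
  obtain ⟨w, hw0, hw1, hU⟩ := h1 β α hβ hα
  refine ⟨w, hw0, hw1, ?_⟩
  intro Γ F hΓ hF a ε Cκ ha ha1 hε hC
  set e : ℝ := min ε (1 / 10) with he
  have he0 : 0 < e := lt_min hε (by norm_num)
  have heε : e ≤ ε := min_le_left _ _
  have he10 : e ≤ 1 / 10 := min_le_right _ _
  obtain ⟨η0, B0, hη0, hU1⟩ := hU Γ F hΓ hF e (2 * Cκ) he0 (by linarith)
  obtain ⟨n1, hL⟩ := h2 Γ hΓ a e ha ha1 he0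
  obtain ⟨nB, hnB⟩ := exists_nat_ge B0
  refine ⟨max n1 (max nB 2), ?_⟩
  intro N0 ρ A κ κa κn κl hN hρ0 hρ1 hCO
  have hNn : n1 ≤ N0 := (le_max_left _ _).trans hN
  have hNB : B0 ≤ N0 := hnB.trans (by exact_mod_cast ((le_max_left _ _).trans (le_max_right _ _)).trans hN)
  have hN2 : 2 ≤ N0 := ((le_max_right _ _).trans (le_max_right _ _)).trans hN
  obtain ⟨r2, hr2, hU2⟩ := hU1 N0 hNB
  obtain ⟨M0, hM0, hM0'⟩ := KLW_M0 N0 hN2 e η0 he0 hη0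
  refine ⟨max r2 ((100 : ℝ) ^ (10 : ℕ)), M0, hr2.trans (le_max_left _ _), hM0, ?_⟩
  intro r M φ hr hM hNr hφ hnn t a' b' ht ht' hab
  have hrr : r2 ≤ r := (le_max_left _ _).trans hr
  have hr100 : (100 : ℝ) ^ (10 : ℕ) ≤ r := (le_max_right _ _).trans hr
  have hr1 : (1 : ℝ) ≤ r := le_trans (by norm_num) hr100
  have hM1 : 1 ≤ M := hM0.trans hM
  have hl0 : r ^ (-(1 / 5) : ℝ) ≤ 1 / (100 * (N0 : ℝ) ^ (M + 1)) := KLW_l0 hr100 hw1 (by omega) hNr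
  have hl00 : 0 ≤ r ^ (-(1 / 5) : ℝ) := Real.rpow_nonneg (by linarith) _
  have hU3 := hU2 r M φ hrr hM1 hNr hφ hnn
  have hPS : ∀ S : Finset (Fin M → Bool), (∃ Ψa Ψn Ψl : SL(2, ℝ) → ℝ, SF Γ (Ps κ N0 M S) Ψa Ψn Ψl ∧ (∀ g, |Ψn g| ≤ 2 * Cκ) ∧ (∀ g, |Ψl g| ≤ 2 * Cκ * (N0 : ℝ) ^ M)) ∧ (∀ g, 0 ≤ Ps κ N0 M S g ∧ Ps κ N0 M S g ≤ 1) := by
    intro S
    obtain ⟨k1, k2, -⟩ := h3 Γ κ κa κn κl Cκ N0 M S hCO.sf hCO.k01 hCO.kn hCO.kl hN2 (by linarith)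
    exact ⟨k1, k2⟩
  have hSF0 : SF Γ (fun _ => 0) (fun _ => 0) (fun _ => 0) (fun _ => 0) := by
    have hi : InvG Γ (fun _ : SL(2, ℝ) => (0 : ℝ)) := ⟨continuous_const, fun _ _ => rfl⟩
    exact ⟨hi, hi, hi, hi, fun g => hasDerivAt_const _ _, fun g => hasDerivAt_const _ _, fun g => hasDerivAt_const _ _⟩
  have hone : ∀ S : Finset (Fin M → Bool), EX F β α r φ (fun g => Ps κ N0 M S (g * aM t)) ≤ 1 + e := by
    intro S
    obtain ⟨⟨Ψa, Ψn, Ψl, s1, s2, s3⟩, s4⟩ := hPS S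
    have hh := hU3 (fun _ => 0) (fun _ => 0) (fun _ => 0) (fun _ => 0) (Ps κ N0 M S) Ψa Ψn Ψl hSF0 s1 (fun g => ⟨le_rfl, zero_le_one⟩) s4
      (fun g => by simp only [abs_zero]; linarith) (fun g => by simp only [abs_zero]; positivity) s2 s3 (KLW_zero _ hη0.le) t ht ht'
    simp only [zero_add] at hh
    exact hh
  have key : ∀ S S' : Finset (Fin M → Bool), (∀ p ∈ S, a' ≤ VV y0 M (ex p)) → (∀ q ∈ S', b' ≤ (Kc (ex q) 0 M : ℝ) / (2 * M)) →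
      LW F β α r φ κ N0 M t S + LW F β α r φ κ N0 M t S' ≤ 1 + e := by
    intro S S' hS hS'
    unfold LW
    refine KLW_add F β α r φ _ _ (1 + e) ?_ (hone S) (hone S')
    obtain ⟨⟨Ψa, Ψn, Ψl, s1, s2, s3⟩, s4⟩ := hPS S
    obtain ⟨⟨Ψa', Ψn', Ψl', s1', s2', s3'⟩, s4'⟩ := hPS S'
    refine hU3 (Ps κ N0 M S) Ψa Ψn Ψl (Ps κ N0 M S') Ψa' Ψn' Ψl' s1 s1' s4 s4' s2 s3 s2' s3' ?_ t ht ht'
    have hx0 : (0 : ℝ) ≤ 1 / 2 + 2 * e + 500 * ρ := by positivity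
    have hx2 : 1 / 2 + 2 * e + 500 * ρ ≤ 2 := by linarith
    have hLF := hL N0 ρ A κ hNn hρ0 hρ1 hCO.ca hCO.sp M S S' (1 / 2 + 2 * e + 500 * ρ) (r ^ (-(1 / 5) : ℝ)) hM1 hx0 hx2 hl00 hl0 (by
      intro p hp q hq
      exact KLW_lab hcv M hM1 (ex p) (ex q) a' b' _ (by linarith) (hS p hp) (hS' q hq))
    refine KLW_mono hLF ?_
    have hex : (1 / 2 - (1 / 2 + 2 * e + 500 * ρ) + e + 500 * ρ) * (M : ℝ) + 3 = -e * M + 3 := by ring
    rw [hex]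
    exact hM0' M hM
  exact (key _ _ (fun p hp => (Finset.mem_filter.1 hp).2) (fun q hq => (Finset.mem_filter.1 hq).2)).trans (by linarith)

end

end Pool.Agent.T1
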