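import Pool.Agent.helper46.T1.SpecP
import Pool.Agent.helper30.MS.CNV

/-!
# MP_07c750, project T1, block P, row XVL: a volume
-/

open scoped MatrixGroups ContDiff Topology UpperHalfPlane ComplexConjugate
open UpperHalfPlane MeasureTheory Filter Set

set_option autoImplicit false

namespace Pool.Agent.TP

open Pool.Agent.RS Pool.Agent.MS

theorem XVL_cell (hGLI : RS.GLI_stmt) (C1 X : ℝ) (hX : 1 ≤ X) (u : SL(2, ℝ))
    (hvol : ∀ τ : ℝ, 0 < τ → mG {h : SL(2, ℝ) | (∀ i j : Fin 2, |h.1 i j| ≤ 2) ∧ |h.1 1 0| ≤ τ} ≤ ENNReal.ofReal (C1 * τ)) :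
    mG {k : SL(2, ℝ) | bq (1 / 4) (1 / 4) (1 / 4 / X) (u⁻¹ * k)} ≤ ENNReal.ofReal (C1 * (1 / 4 / X)) := by
  have hX0 : 0 < X := by linarith
  have hsub : {k : SL(2, ℝ) | bq (1 / 4) (1 / 4) (1 / 4 / X) (u⁻¹ * k)} ⊆
      {k | u⁻¹ * k ∈ {h : SL(2, ℝ) | (∀ i j : Fin 2, |h.1 i j| ≤ 2) ∧ |h.1 1 0| ≤ 1 / 4 / X}} := by
    rintro k ⟨b1, b2, b3, b4⟩
    refine ⟨?_, b4⟩
    have h4 : (1 : ℝ) / 4 / X ≤ 1 / 4 := div_le_self (by norm_num) hX
    intro i j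
    fin_cases i <;> fin_cases j
    · show |(u⁻¹ * k).1 0 0| ≤ 2
      have := abs_le.1 b1
      rw [abs_le]
      constructor <;> linarith
    · show |(u⁻¹ * k).1 0 1| ≤ 2
      linarith
    · show |(u⁻¹ * k).1 1 0| ≤ 2
      linarith
    · show |(u⁻¹ * k).1 1 1| ≤ 2
      have := abs_le.1 b2
      rw [abs_le]
      constructor <;> linarith
  refine (measure_mono hsub).trans ?_
  rw [CNV_mu hGLI u⁻¹ _ (CNV_closed _).measurableSet]
  exact hvol _ (by positivity)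

theorem XVL_proof (hCVK : MS.CVK_stmt) (hXVO : EN.XVO_stmt) (hGLI : RS.GLI_stmt) : XVL_stmt := by
  classical
  obtain ⟨C1, hC1, hvol⟩ := hXVO
  obtain ⟨C0, hC0, hcov⟩ := hCVK 3 (1 / 4) (by norm_num) (by norm_num) (by norm_num)
  refine ⟨C0 * C1, mul_pos hC0 hC1, ?_⟩
  intro ρ hρ
  have main : ∀ X : ℝ, 1 ≤ X → mG {k : SL(2, ℝ) | (∀ i j, |k.1 i j| ≤ 3) ∧ |k.1 1 0| ≤ ρ} ≤
      ENNReal.ofReal (C0 * (1 + ρ * X) * (C1 * (1 / 4 / X))) := by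
    intro X hX
    have hX0 : 0 < X := by linarith
    obtain ⟨A, hA, hAc⟩ := hcov X ρ hX hρ
    have hsub : {k : SL(2, ℝ) | (∀ i j, |k.1 i j| ≤ 3) ∧ |k.1 1 0| ≤ ρ} ⊆
        ⋃ u ∈ A, {k : SL(2, ℝ) | bq (1 / 4) (1 / 4) (1 / 4 / X) (u⁻¹ * k)} := by
      rintro k ⟨h1, h2⟩
      obtain ⟨u, hu, hb⟩ := hAc k h1 h2
      exact Set.mem_biUnion hu hb
    refine (measure_mono hsub).trans ((measure_biUnion_finset_le A _).trans ?_)
    refine (Finset.sum_le_sum fun u _ => XVL_cell hGLI C1 X hX u hvol).trans ?_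
    rw [Finset.sum_const, nsmul_eq_mul, ← ENNReal.ofReal_natCast, ← ENNReal.ofReal_mul (Nat.cast_nonneg _)]
    apply ENNReal.ofReal_le_ofReal
    exact mul_le_mul_of_nonneg_right hA (by positivity)
  rcases le_or_gt ρ 1 with h1 | h1
  · refine (main (1 / ρ) (by rw [le_div_iff₀ hρ]; linarith)).trans (ENNReal.ofReal_le_ofReal ?_)
    have e : C0 * (1 + ρ * (1 / ρ)) * (C1 * (1 / 4 / (1 / ρ))) = C0 * C1 * ρ / 2 := by
      field_simp
      ring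
    rw [e]
    have : 0 < C0 * C1 * ρ := by positivity
    linarith
  · refine (main 1 le_rfl).trans (ENNReal.ofReal_le_ofReal ?_)
    have h2 : (1 + ρ * 1) * (1 / 4 / 1) ≤ ρ := by linarith
    have h3 := mul_le_mul_of_nonneg_left h2 (mul_pos hC0 hC1).le
    linarith

end Pool.Agent.TP
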